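import Mathlib
import Pool.Agent.H22.SgRing

set_option autoImplicit false

/-- A Hausdorff topological ring `R` and a monoid `G` such that no Hausdorff ring topology on the
monoid ring `R G` induces the given topology on `R`. -/
theorem Pool.Agent.Results.MP_311bfa_al.NoExtension.result :
    ∃ (R : Type) (_ : Ring R) (τ₀ : TopologicalSpace R), IsTopologicalRing R ∧ T2Space R ∧
      ∃ (G : Type) (_ : Monoid G), ∀ τ : TopologicalSpace (MonoidAlgebra R G),
        IsTopologicalRing (MonoidAlgebra R G) → T2Space (MonoidAlgebra R G) →
        τ.induced (fun r : R => MonoidAlgebra.single (1 : G) r) ≠ τ₀ :=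
  ⟨Pool.Agent.H22.SgRing.Ex Pool.Agent.H22.SgRing.BB, inferInstance, inferInstance, inferInstance,
    inferInstance, Pool.Agent.H22.SgRing.G, inferInstance, fun _ _ _ h =>
      Pool.Agent.H22.SgRing.final (continuous_iff_le_induced.2 h.ge)⟩
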